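import Pool.Agent.Helper96.GU.StF

set_option autoImplicit false

/-! Project GF (helper96), module VUQ: well defined values. -/

namespace Pool.Agent.Helper16.GF

open Pool.Agent.Helper96.UT hiding StTOP TopV TopE tht Bd VC EC
open Pool.Agent.Helper96.GU

theorem tVUQ : StVNT → StVUQ := by
  intro hVNT α r Z hr Ω _ v E hov q q' hq hq' h
  have h1 : act v (FreeGroup.mk q * (FreeGroup.mk q')⁻¹) = v := by
    rw [act_mul, h]
    exact act_inv_eq rfl
  obtain ⟨w, hw1, hw2⟩ := hVNT α r Z hr _ (hov.stab _ h1)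
  have h2 : io r (w ++ q') = io r q' := by
    rw [io_append, hw2, one_mul]
  have h3 : RU (io r (w ++ q')) := by
    rw [h2]
    exact hov.ru q' hq'
  rw [← h2]
  refine RU_uniq (hov.ru q hq) h3 ?_
  rw [mk_append, hw1, inv_mul_cancel_right]

end Pool.Agent.Helper16.GF
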